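import Pool.Agent.V5helper73.SZ.StmB
import Pool.Agent.V5helper47.GC.HAR

/-! # Project SZ, job HAR3 -/

set_option autoImplicit false

namespace V5helper40.SZ.H3

open V5helper73.SZ V5helper73.GC
open Complex (I)

/-- the linear part of the sums -/
lemma fin_sum_le {n : ℕ} (σ : Fin n → ℕ) (hσ : StrictMono σ) (D : ℝ) (hD : 0 < D)
    (hsp : ∀ t t', (σ t' : ℝ) - σ t ≤ D) :
    ∑ j : Fin n, ∑ l : Fin n, (if l < j then ((σ j : ℝ) - σ l) / ((j:ℝ) - (l:ℝ)) else 0) ≤ n * D := by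
  rcases Nat.eq_zero_or_pos n with rfl | hn
  · simp
  set θ : ℕ → ℝ := fun t => if h : t < n then (σ ⟨t, h⟩ : ℝ) / D else 0 with hθ
  have hθv : ∀ t : Fin n, θ t = (σ t : ℝ) / D := by
    intro t; simp only [hθ]; rw [dif_pos t.2]
  have hmono : ∀ i j, i ≤ j → j < n → θ i ≤ θ j := by
    intro i j hij hj
    simp only [hθ]
    rw [dif_pos hj, dif_pos (lt_of_le_of_lt hij hj)]
    apply div_le_div_of_nonneg_right _ hD.le
    exact_mod_cast hσ.monotone (show (⟨i, lt_of_le_of_lt hij hj⟩ : Fin n) ≤ ⟨j, hj⟩ from hij)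
  have h1 : θ (n - 1) - θ 0 ≤ 1 := by
    simp only [hθ]
    rw [dif_pos (by omega : n - 1 < n), dif_pos hn, ← sub_div, div_le_one hD]
    exact hsp _ _
  have h2 := V5helper47.GC.C_le hmono h1
  rw [Finset.sum_range (fun j => ∑ l ∈ Finset.range j, (θ j - θ l) / ((j : ℝ) - (l : ℝ)))] at h2
  have h3 : ∀ j : Fin n, ∑ l ∈ Finset.range (j:ℕ), (θ j - θ l) / (((j:ℕ) : ℝ) - (l : ℝ)) =
      (∑ l : Fin n, (if l < j then ((σ j : ℝ) - σ l) / ((j:ℝ) - (l:ℝ)) else 0)) / D := by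
    intro j
    rw [Finset.sum_div]
    have h4 : ∀ l : Fin n, (if l < j then ((σ j : ℝ) - σ l) / ((j:ℝ) - (l:ℝ)) else 0) / D =
        (fun l : ℕ => if l < (j : ℕ) then (θ j - θ l) / (((j : ℕ) : ℝ) - (l : ℝ)) else 0) l := by
      intro l
      simp only [hθv, Fin.lt_def]
      split_ifs with h
      · ring
      · simp
    rw [Finset.sum_congr rfl fun l _ => h4 l, ← Finset.sum_range
      (fun l : ℕ => if l < (j : ℕ) then (θ j - θ l) / (((j : ℕ) : ℝ) - (l : ℝ)) else 0), ← Finset.sum_filter]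
    refine (Finset.sum_congr ?_ fun _ _ => rfl).symm
    ext l
    simp only [Finset.mem_filter, Finset.mem_range]
    have := j.2
    constructor
    · intro h; exact h.2
    · intro h; exact ⟨by omega, h⟩
  rw [Finset.sum_congr rfl fun j _ => h3 j, ← Finset.sum_div, div_le_iff₀ hD] at h2
  exact h2

/-- Lipschitz bound for the logarithm along a circle -/
lemma lip {α β μ : ℝ} (hα : |α| ≤ 1) (hμ : 0 < μ)
    (h : ∀ φ ∈ Set.Icc (0:ℝ) (Real.pi / 2), ((α:ℂ) * Complex.exp ((φ:ℂ) * I) + (β:ℂ)) ∈ Complex.slitPlane ∧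
      μ ≤ ‖(α:ℂ) * Complex.exp ((φ:ℂ) * I) + (β:ℂ)‖) {φ ψ : ℝ} (hφ : φ ∈ Set.Icc (0:ℝ) (Real.pi / 2))
    (hψ : ψ ∈ Set.Icc (0:ℝ) (Real.pi / 2)) :
    ‖Complex.log ((α:ℂ) * Complex.exp ((φ:ℂ) * I) + (β:ℂ)) -
      Complex.log ((α:ℂ) * Complex.exp ((ψ:ℂ) * I) + (β:ℂ))‖ ≤ 1 / μ * |φ - ψ| := by
  have hder : ∀ x ∈ Set.Icc (0:ℝ) (Real.pi / 2),
      HasDerivWithinAt (fun t : ℝ => Complex.log ((α:ℂ) * Complex.exp ((t:ℂ) * I) + (β:ℂ)))
        ((α:ℂ) * (Complex.exp ((x:ℂ) * I) * (1 * I)) / ((α:ℂ) * Complex.exp ((x:ℂ) * I) + (β:ℂ)))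
        (Set.Icc (0:ℝ) (Real.pi / 2)) x := by
    intro x hx
    have h1 : HasDerivAt (fun t : ℝ => (α:ℂ) * Complex.exp ((t:ℂ) * I) + (β:ℂ))
        ((α:ℂ) * (Complex.exp ((x:ℂ) * I) * (1 * I))) x := by
      have h2 : HasDerivAt (fun t : ℂ => (α:ℂ) * Complex.exp (t * I) + (β:ℂ))
          ((α:ℂ) * (Complex.exp ((x:ℂ) * I) * (1 * I))) (x:ℂ) :=
        ((((hasDerivAt_id (x:ℂ)).mul_const I).cexp).const_mul (α:ℂ)).add_const (β:ℂ)
      exact h2.comp_ofReal
    exact (h1.clog_real (h x hx).1).hasDerivWithinAt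
  have hbd : ∀ x ∈ Set.Icc (0:ℝ) (Real.pi / 2),
      ‖(α:ℂ) * (Complex.exp ((x:ℂ) * I) * (1 * I)) / ((α:ℂ) * Complex.exp ((x:ℂ) * I) + (β:ℂ))‖ ≤ 1 / μ := by
    intro x hx
    have h1 := (h x hx).2
    rw [norm_div]
    have h2 : ‖(α:ℂ) * (Complex.exp ((x:ℂ) * I) * (1 * I))‖ = |α| := by
      rw [norm_mul, norm_mul, Complex.norm_exp_ofReal_mul_I, one_mul, one_mul, Complex.norm_I, mul_one,
        Complex.norm_real, Real.norm_eq_abs]
    rw [h2]
    exact div_le_div₀ (by norm_num) hα hμ h1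
  have := (convex_Icc (0:ℝ) (Real.pi / 2)).norm_image_sub_le_of_norm_hasDerivWithin_le hder hbd hψ hφ
  simpa [Real.norm_eq_abs] using this

lemma arg_bound {r t : ℝ} (hr0 : 0 ≤ r) (hr1 : r < 1) :
    |(Complex.log (1 + (r:ℂ) * Complex.exp ((t:ℂ) * I))).im| ≤ 2 * |t| := by
  rw [Complex.log_im]
  set z : ℂ := 1 + (r:ℂ) * Complex.exp ((t:ℂ) * I) with hz
  have hre : z.re = 1 + r * Real.cos t := by
    rw [hz, Complex.add_re, Complex.one_re, Complex.re_ofReal_mul, Complex.exp_ofReal_mul_I_re]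
  have him : z.im = r * Real.sin t := by
    rw [hz, Complex.add_im, Complex.one_im, zero_add, Complex.im_ofReal_mul, Complex.exp_ofReal_mul_I_im]
  have hre0 : 0 ≤ z.re := by
    rw [hre]; nlinarith [Real.neg_one_le_cos t]
  by_cases ht : 1 ≤ |t|
  · have h1 : |Complex.arg z| ≤ Real.pi / 2 := Complex.abs_arg_le_pi_div_two_iff.2 hre0
    have := Real.pi_lt_four
    linarith
  · push Not at ht
    have hcos : 0 ≤ Real.cos t := by
      apply Real.cos_nonneg_of_neg_pi_div_two_le_of_le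
      · have := Real.pi_gt_three; have := neg_abs_le t; linarith
      · have := Real.pi_gt_three; have := le_abs_self t; linarith
    have hre1 : 1 ≤ z.re := by rw [hre]; nlinarith
    have hn1 : 1 ≤ ‖z‖ := hre1.trans (Complex.re_le_norm z)
    rw [Complex.arg_of_re_nonneg hre0]
    set y : ℝ := Real.arcsin (z.im / ‖z‖) with hy
    have hx : |z.im / ‖z‖| ≤ |t| := by
      rw [abs_div, abs_of_nonneg (norm_nonneg z), div_le_iff₀ (by linarith), him, abs_mul, abs_of_nonneg hr0]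
      have h1 : |Real.sin t| ≤ |t| := Real.abs_sin_le_abs
      have h2 := abs_nonneg t
      have h3 := abs_nonneg (Real.sin t)
      nlinarith
    have hsin : Real.sin y = z.im / ‖z‖ := by
      rw [hy]
      apply Real.sin_arcsin
      · have := neg_abs_le (z.im / ‖z‖); linarith
      · have := le_abs_self (z.im / ‖z‖); linarith
    have hylb := Real.neg_pi_div_two_le_arcsin (z.im / ‖z‖)
    have hyub := Real.arcsin_le_pi_div_two (z.im / ‖z‖)
    rw [← hy] at hylb hyub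
    have hj : 2 / Real.pi * |y| ≤ |z.im / ‖z‖| := by
      rw [← hsin]
      have h0 : |y| ≤ Real.pi / 2 := abs_le.2 ⟨by linarith, hyub⟩
      have h1 := Real.mul_le_sin (abs_nonneg y) h0
      refine h1.trans ?_
      rcases abs_cases y with ⟨h, _⟩ | ⟨h, _⟩
      · rw [h]; exact le_abs_self _
      · rw [h, Real.sin_neg]; exact neg_le_abs _
    have hpi := Real.pi_pos
    have hpi4 := Real.pi_lt_four
    have h5 : |y| ≤ Real.pi / 2 * |t| := by
      have h6 := mul_le_mul_of_nonneg_left (hj.trans hx) (show 0 ≤ Real.pi / 2 by positivity)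
      have h7 : Real.pi / 2 * (2 / Real.pi * |y|) = |y| := by field_simp
      linarith
    nlinarith [abs_nonneg t]

/-- the product formula -/
lemma key_id {p : ℂ} (hp : ‖p‖ < 1) :
    -Complex.log (1 - p) - -Complex.log (1 + p) = -Complex.log (1 - p ^ 2) + 2 * Complex.log (1 + p) := by
  have h1 : 0 < (1 - p).re := by
    rw [Complex.sub_re, Complex.one_re]; have := Complex.re_le_norm p; linarith
  have h2 : 0 < (1 + p).re := by
    rw [Complex.add_re, Complex.one_re]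
    have := (abs_le.1 (Complex.abs_re_le_norm p)).1; linarith
  have h3 : (1 - p) ≠ 0 := by intro h; rw [h] at h1; simp at h1
  have h4 : (1 + p) ≠ 0 := by intro h; rw [h] at h2; simp at h2
  have a1 := abs_lt.1 (Complex.abs_arg_lt_pi_div_two_iff.2 (Or.inl h1))
  have a2 := abs_lt.1 (Complex.abs_arg_lt_pi_div_two_iff.2 (Or.inl h2))
  have h5 : Complex.log ((1 - p) * (1 + p)) = Complex.log (1 - p) + Complex.log (1 + p) :=
    Complex.log_mul h3 h4 ⟨by linarith [a1.1, a2.1], by linarith [a1.2, a2.2]⟩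
  have h6 : 1 - p ^ 2 = (1 - p) * (1 + p) := by ring
  rw [h6, h5]
  ring

lemma bm_lt {a z : ℂ} (ha : ‖a‖ < 1) (hz : ‖z‖ < 1) : ‖bm a z‖ < 1 := by
  have hden : 0 < ‖1 - (starRingEnd ℂ) a * z‖ := by
    rw [norm_pos_iff]
    intro h
    have h1 : (starRingEnd ℂ) a * z = 1 := by linear_combination -h
    have h2 : ‖(starRingEnd ℂ) a * z‖ = 1 := by rw [h1, norm_one]
    rw [norm_mul, RCLike.norm_conj] at h2
    nlinarith [norm_nonneg a, norm_nonneg z]
  rw [bm, norm_div, div_lt_one hden]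
  rw [← sq_lt_sq₀ (norm_nonneg _) (norm_nonneg _), ← Complex.normSq_eq_norm_sq, ← Complex.normSq_eq_norm_sq]
  have h1 : Complex.normSq a < 1 := by rw [Complex.normSq_eq_norm_sq]; nlinarith [norm_nonneg a]
  have h2 : Complex.normSq z < 1 := by rw [Complex.normSq_eq_norm_sq]; nlinarith [norm_nonneg z]
  have h3 : Complex.normSq (1 - (starRingEnd ℂ) a * z) - Complex.normSq (z - a) =
      (1 - Complex.normSq a) * (1 - Complex.normSq z) := by
    simp only [Complex.normSq_apply, Complex.sub_re, Complex.sub_im, Complex.mul_re, Complex.mul_im, Complex.one_re,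
      Complex.one_im, Complex.conj_re, Complex.conj_im]
    ring
  nlinarith [mul_pos (sub_pos.2 h1) (sub_pos.2 h2)]

theorem t_HAR3 (hH : S_HAR2) : S_HAR3 := by
  obtain ⟨C, hC, hH⟩ := hH
  refine ⟨C + 24, by linarith, ?_⟩
  intro k m i hk hkm
  set ra : ℝ := 1 - (1 / 2 : ℝ) ^ k with hra
  set ρ : ℝ := 1 - (1 / 2 : ℝ) ^ m with hρ
  set θ0 : ℝ := 2 * Real.pi * i / 2 ^ k with hθ0
  set φ : ℕ → ℝ := fun j => 2 * Real.pi * j / 2 ^ m - θ0 with hφ
  have hpk : (0:ℝ) < (1 / 2 : ℝ) ^ k := by positivity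
  have hpm : (0:ℝ) < (1 / 2 : ℝ) ^ m := by positivity
  have hmk : (1 / 2 : ℝ) ^ m ≤ (1 / 2 : ℝ) ^ k / 2 := by
    have h1 : (1 / 2 : ℝ) ^ m ≤ (1 / 2 : ℝ) ^ (k + 1) :=
      pow_le_pow_of_le_one (by norm_num) (by norm_num) hkm
    rw [pow_succ] at h1
    linarith
  have hk4 : (1 / 2 : ℝ) ^ k ≤ 1 / 4 := by
    have h1 : (1 / 2 : ℝ) ^ k ≤ (1 / 2 : ℝ) ^ 2 := pow_le_pow_of_le_one (by norm_num) (by norm_num) hk
    norm_num at h1 ⊢
    exact h1
  have hra0 : 0 < ra := by rw [hra]; linarith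
  have hra1 : ra < 1 := by rw [hra]; linarith
  have hρ0 : 0 < ρ := by rw [hρ]; linarith
  have hρ1 : ρ < 1 := by rw [hρ]; linarith
  have hdiff : (1 / 2 : ℝ) ^ k / 2 ≤ ρ - ra := by rw [hρ, hra]; linarith
  set G : ℝ → ℂ := fun x => (Complex.log ((ρ:ℂ) * Complex.exp ((x:ℂ) * I) + ((-ra : ℝ):ℂ)) -
    Complex.log (((-(ra * ρ) : ℝ):ℂ) * Complex.exp ((x:ℂ) * I) + ((1:ℝ):ℂ)) + (θ0:ℂ) * I) / 2 with hG
  -- the two functions
  have hA : ∀ x ∈ Set.Icc (0:ℝ) (Real.pi / 2),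
      ((ρ:ℂ) * Complex.exp ((x:ℂ) * I) + ((-ra : ℝ):ℂ)) ∈ Complex.slitPlane ∧
      (1 / 2 : ℝ) ^ k / 2 ≤ ‖(ρ:ℂ) * Complex.exp ((x:ℂ) * I) + ((-ra : ℝ):ℂ)‖ := by
    intro x hx
    constructor
    · rw [Complex.mem_slitPlane_iff]
      rcases eq_or_lt_of_le hx.1 with h0 | h0
      · left
        rw [← h0, Complex.add_re, Complex.re_ofReal_mul, Complex.exp_ofReal_mul_I_re, Real.cos_zero, Complex.ofReal_re]
        linarith
      · right
        rw [Complex.add_im, Complex.im_ofReal_mul, Complex.exp_ofReal_mul_I_im, Complex.ofReal_im, add_zero]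
        have : 0 < Real.sin x := Real.sin_pos_of_pos_of_lt_pi h0 (by have := hx.2; have := Real.pi_pos; linarith)
        positivity
    · have h1 : ‖(ρ:ℂ) * Complex.exp ((x:ℂ) * I)‖ = ρ := by
        rw [norm_mul, Complex.norm_exp_ofReal_mul_I, mul_one, Complex.norm_real, Real.norm_eq_abs, abs_of_pos hρ0]
      have h2 : ‖((-ra : ℝ):ℂ)‖ = ra := by
        rw [Complex.norm_real, Real.norm_eq_abs, abs_neg, abs_of_pos hra0]
      have h3 := norm_sub_norm_le ((ρ:ℂ) * Complex.exp ((x:ℂ) * I)) (-((-ra : ℝ):ℂ))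
      rw [norm_neg, h1, h2, sub_neg_eq_add] at h3
      linarith
  have hB : ∀ x ∈ Set.Icc (0:ℝ) (Real.pi / 2),
      (((-(ra * ρ) : ℝ):ℂ) * Complex.exp ((x:ℂ) * I) + ((1:ℝ):ℂ)) ∈ Complex.slitPlane ∧
      (1 / 2 : ℝ) ^ k ≤ ‖((-(ra * ρ) : ℝ):ℂ) * Complex.exp ((x:ℂ) * I) + ((1:ℝ):ℂ)‖ := by
    intro x hx
    have h1 : (((-(ra * ρ) : ℝ):ℂ) * Complex.exp ((x:ℂ) * I) + ((1:ℝ):ℂ)).re = 1 - ra * ρ * Real.cos x := by
      rw [Complex.add_re, Complex.re_ofReal_mul, Complex.exp_ofReal_mul_I_re, Complex.ofReal_re]; ring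
    have h2 : (1 / 2 : ℝ) ^ k ≤ 1 - ra * ρ * Real.cos x := by
      have h3 : ra * ρ * Real.cos x ≤ ra * ρ := by
        have := Real.cos_le_one x
        have : 0 < ra * ρ := by positivity
        nlinarith
      have h4 : ra * ρ ≤ ra := by nlinarith
      have h5 : ra = 1 - (1 / 2 : ℝ) ^ k := hra
      linarith
    constructor
    · rw [Complex.mem_slitPlane_iff]
      left; rw [h1]; linarith
    · refine h2.trans ?_
      rw [← h1]
      exact Complex.re_le_norm _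
  have hGlip : ∀ x ∈ Set.Icc (0:ℝ) (Real.pi / 2), ∀ y ∈ Set.Icc (0:ℝ) (Real.pi / 2),
      ‖G x - G y‖ ≤ 3 / 2 * 2 ^ k * |x - y| := by
    intro x hx y hy
    have h1 := lip (α := ρ) (β := -ra) (μ := (1 / 2 : ℝ) ^ k / 2) (by rw [abs_of_pos hρ0]; linarith) (by positivity) hA hx hy
    have h2 := lip (α := -(ra * ρ)) (β := 1) (μ := (1 / 2 : ℝ) ^ k)
      (by rw [abs_neg, abs_of_pos (by positivity)]; nlinarith) (by positivity) hB hx hy
    have h3 : G x - G y = ((Complex.log ((ρ:ℂ) * Complex.exp ((x:ℂ) * I) + ((-ra : ℝ):ℂ)) -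
        Complex.log ((ρ:ℂ) * Complex.exp ((y:ℂ) * I) + ((-ra : ℝ):ℂ))) -
        (Complex.log (((-(ra * ρ) : ℝ):ℂ) * Complex.exp ((x:ℂ) * I) + ((1:ℝ):ℂ)) -
        Complex.log (((-(ra * ρ) : ℝ):ℂ) * Complex.exp ((y:ℂ) * I) + ((1:ℝ):ℂ)))) / 2 := by
      simp only [hG]; ring
    rw [h3, norm_div]
    have h4 : ‖(2:ℂ)‖ = 2 := by simp
    rw [h4, div_le_iff₀ (by norm_num)]
    refine (norm_sub_le _ _).trans ?_
    have h5 : (1:ℝ) / ((1 / 2 : ℝ) ^ k / 2) = 2 * 2 ^ k := by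
      rw [one_div_pow]; field_simp
    have h6 : (1:ℝ) / ((1 / 2 : ℝ) ^ k) = 2 ^ k := by
      rw [one_div_pow]; field_simp
    rw [h5] at h1
    rw [h6] at h2
    linarith
  have hcell : ∀ j : ℕ, j / 2 ^ (m - k) = i → i * 2 ^ (m - k) ≤ j ∧ j < (i + 1) * 2 ^ (m - k) := by
    intro j hj
    have hp : 0 < 2 ^ (m - k) := by positivity
    constructor
    · rw [← hj]; exact Nat.div_mul_le_self _ _
    · rw [← hj, Nat.add_mul, one_mul]; exact Nat.lt_div_mul_add hp
  have h2k4 : (4:ℝ) ≤ 2 ^ k := by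
    have h1 : (2:ℝ) ^ 2 ≤ 2 ^ k := pow_le_pow_right₀ (by norm_num) hk
    norm_num at h1 ⊢
    exact h1
  have hmk2 : (2:ℝ) ^ m = 2 ^ (m - k) * 2 ^ k := by rw [← pow_add]; congr 1; omega
  have hpi := Real.pi_pos
  have hφmem : ∀ j : ℕ, j / 2 ^ (m - k) = i → φ j ∈ Set.Icc (0:ℝ) (Real.pi / 2) := by
    intro j hj
    obtain ⟨h1, h2⟩ := hcell j hj
    have h1' : (i:ℝ) * 2 ^ (m - k) ≤ j := by exact_mod_cast h1
    have h2' : (j:ℝ) ≤ ((i:ℝ) + 1) * 2 ^ (m - k) := by exact_mod_cast h2.le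
    have h3 : φ j = 2 * Real.pi * ((j:ℝ) - i * 2 ^ (m - k)) / 2 ^ m := by
      simp only [hφ, hθ0]
      rw [hmk2]
      field_simp
    rw [h3]
    constructor
    · apply div_nonneg _ (by positivity)
      apply mul_nonneg (by positivity)
      linarith
    · rw [div_le_iff₀ (by positivity), hmk2]
      have h4 : (0:ℝ) < 2 ^ (m - k) := by positivity
      have h5 : (j:ℝ) - i * 2 ^ (m - k) ≤ 2 ^ (m - k) := by linarith
      have h6 : 2 * Real.pi * ((j:ℝ) - i * 2 ^ (m - k)) ≤ 2 * Real.pi * 2 ^ (m - k) :=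
        mul_le_mul_of_nonneg_left h5 (by positivity)
      have h7 : Real.pi / 2 * (2 ^ (m - k) * 4) ≤ Real.pi / 2 * (2 ^ (m - k) * 2 ^ k) :=
        mul_le_mul_of_nonneg_left (mul_le_mul_of_nonneg_left h2k4 h4.le) (by positivity)
      linarith
  have hsq : ∀ j : ℕ, j / 2 ^ (m - k) = i → Complex.exp (G (φ j)) ^ 2 = bm (pt k i) (pt m j) := by
    intro j hj
    have hm := hφmem j hj
    have hAne := Complex.slitPlane_ne_zero (hA _ hm).1
    have hBne := Complex.slitPlane_ne_zero (hB _ hm).1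
    have h1 : Complex.exp (G (φ j)) ^ 2 = ((ρ:ℂ) * Complex.exp ((φ j:ℂ) * I) + ((-ra : ℝ):ℂ)) /
        (((-(ra * ρ) : ℝ):ℂ) * Complex.exp ((φ j:ℂ) * I) + ((1:ℝ):ℂ)) * Complex.exp ((θ0:ℂ) * I) := by
      rw [← Complex.exp_nat_mul]
      have h2 : ((2:ℕ):ℂ) * G (φ j) = Complex.log ((ρ:ℂ) * Complex.exp ((φ j:ℂ) * I) + ((-ra : ℝ):ℂ)) -
          Complex.log (((-(ra * ρ) : ℝ):ℂ) * Complex.exp ((φ j:ℂ) * I) + ((1:ℝ):ℂ)) + (θ0:ℂ) * I := by
        simp only [hG]; push_cast; ring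
      rw [h2, Complex.exp_add, Complex.exp_sub, Complex.exp_log hAne, Complex.exp_log hBne]
    rw [h1]
    have hE : (starRingEnd ℂ) (Complex.exp ((θ0:ℂ) * I)) * Complex.exp ((θ0:ℂ) * I) = 1 := by
      rw [← Complex.normSq_eq_conj_mul_self, Complex.normSq_eq_norm_sq, Complex.norm_exp_ofReal_mul_I]
      simp
    have hptk : pt k i = (ra:ℂ) * Complex.exp ((θ0:ℂ) * I) := rfl
    have hptm : pt m j = (ρ:ℂ) * (Complex.exp ((θ0:ℂ) * I) * Complex.exp ((φ j:ℂ) * I)) := by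
      rw [← Complex.exp_add, ← add_mul, ← Complex.ofReal_add]
      have : θ0 + φ j = 2 * Real.pi * j / 2 ^ m := by simp only [hφ]; ring
      rw [this]
      rfl
    rw [bm, hptk, hptm, map_mul, Complex.conj_ofReal]
    have hden : 1 - (ra:ℂ) * (starRingEnd ℂ) (Complex.exp ((θ0:ℂ) * I)) *
        ((ρ:ℂ) * (Complex.exp ((θ0:ℂ) * I) * Complex.exp ((φ j:ℂ) * I))) =
        ((-(ra * ρ) : ℝ):ℂ) * Complex.exp ((φ j:ℂ) * I) + ((1:ℝ):ℂ) := by
      push_cast
      linear_combination (-(ra:ℂ) * ρ * Complex.exp ((φ j:ℂ) * I)) * hE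
    rw [hden, div_mul_eq_mul_div]
    congr 1
    push_cast
    ring
  refine ⟨fun j => Complex.exp (G (φ j)), fun j _ hj => hsq j hj, ?_⟩
  intro n σ hσ hcl hsp
  have base := hH k m i hkm n σ hσ hcl hsp
  set c : ℝ := 12 * Real.pi * 2 ^ k / 2 ^ m with hc
  have hc0 : 0 ≤ c := by positivity
  have hterm : ∀ j l : Fin n,
      (if l < j then (-Complex.log (1 - bm (pt k i) (pt m (σ j)) *
        (starRingEnd ℂ) (bm (pt k i) (pt m (σ l))))).im / ((j : ℝ) - (l : ℝ)) else 0) -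
        c * (if l < j then ((σ j : ℝ) - σ l) / ((j:ℝ) - (l:ℝ)) else 0) ≤
      (if l < j then (BB (Complex.exp (G (φ (σ j)))) (Complex.exp (G (φ (σ l)))) -
        BB (Complex.exp (G (φ (σ j)))) (-Complex.exp (G (φ (σ l))))).im / ((j : ℝ) - (l : ℝ)) else 0) := by
    intro j l
    split_ifs with hlj
    · have hjl : (0:ℝ) < (j:ℝ) - (l:ℝ) := by
        have : ((l:ℕ):ℝ) < ((j:ℕ):ℝ) := by exact_mod_cast hlj
        linarith
      rw [← mul_div_assoc, ← sub_div, div_le_div_iff_of_pos_right hjl]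
      set gj := G (φ (σ j)) with hgj
      set gl := G (φ (σ l)) with hgl
      have hσlt : ((σ l : ℕ) : ℝ) < ((σ j : ℕ) : ℝ) := by exact_mod_cast hσ hlj
      have hnorm : ∀ t : Fin n, ‖Complex.exp (G (φ (σ t)))‖ < 1 := by
        intro t
        have h1 := hsq (σ t) (hcl t).2
        have h2 : ‖bm (pt k i) (pt m (σ t))‖ < 1 := by
          apply bm_lt
          · have : pt k i = (ra:ℂ) * Complex.exp ((θ0:ℂ) * I) := rfl
            rw [this, norm_mul, Complex.norm_exp_ofReal_mul_I, mul_one, Complex.norm_real, Real.norm_eq_abs,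
              abs_of_pos hra0]
            exact hra1
          · have : pt m (σ t) = (ρ:ℂ) * Complex.exp (((2 * Real.pi * (σ t) / 2 ^ m : ℝ):ℂ) * I) := rfl
            rw [this, norm_mul, Complex.norm_exp_ofReal_mul_I, mul_one, Complex.norm_real, Real.norm_eq_abs,
              abs_of_pos hρ0]
            exact hρ1
        rw [← h1, norm_pow] at h2
        exact (pow_lt_one_iff_of_nonneg (norm_nonneg _) (by norm_num)).1 h2
      set r : ℝ := Real.exp (gj.re + gl.re) with hr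
      set t : ℝ := gj.im - gl.im with ht
      have hp : Complex.exp gj * (starRingEnd ℂ) (Complex.exp gl) = (r:ℂ) * Complex.exp ((t:ℂ) * I) := by
        rw [← Complex.exp_conj, ← Complex.exp_add, hr, Complex.ofReal_exp, ← Complex.exp_add]
        congr 1
        apply Complex.ext
        · simp
        · simp [ht, sub_eq_add_neg]
      have hr0 : 0 ≤ r := (Real.exp_pos _).le
      have hpn : ‖Complex.exp gj * (starRingEnd ℂ) (Complex.exp gl)‖ = r := by
        rw [hp, norm_mul, Complex.norm_exp_ofReal_mul_I, mul_one, Complex.norm_real, Real.norm_eq_abs,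
          abs_of_nonneg hr0]
      have hp1 : ‖Complex.exp gj * (starRingEnd ℂ) (Complex.exp gl)‖ < 1 := by
        rw [norm_mul, RCLike.norm_conj]
        have h1 := hnorm j
        have h2 := hnorm l
        nlinarith [norm_nonneg (Complex.exp gj), norm_nonneg (Complex.exp gl)]
      have hr1 : r < 1 := by rw [← hpn]; exact hp1
      have hb := arg_bound (t := t) hr0 hr1
      rw [← hp] at hb
      have hid := key_id hp1
      have hBB : BB (Complex.exp gj) (Complex.exp gl) - BB (Complex.exp gj) (-Complex.exp gl) =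
          -Complex.log (1 - bm (pt k i) (pt m (σ j)) * (starRingEnd ℂ) (bm (pt k i) (pt m (σ l)))) +
            2 * Complex.log (1 + Complex.exp gj * (starRingEnd ℂ) (Complex.exp gl)) := by
        rw [← hsq (σ j) (hcl j).2, ← hsq (σ l) (hcl l).2, map_pow, ← mul_pow, ← hid]
        unfold BB
        rw [map_neg, mul_neg, sub_neg_eq_add (1:ℂ)]
      rw [hBB, Complex.add_im]
      have h2im : (2 * Complex.log (1 + Complex.exp gj * (starRingEnd ℂ) (Complex.exp gl))).im =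
          2 * (Complex.log (1 + Complex.exp gj * (starRingEnd ℂ) (Complex.exp gl))).im := by
        simp
      rw [h2im]
      have htb : |t| ≤ 3 / 2 * 2 ^ k * |φ (σ j) - φ (σ l)| := by
        have h1 : t = (gj - gl).im := by rw [ht, Complex.sub_im]
        rw [h1]
        exact (Complex.abs_im_le_norm _).trans (hGlip _ (hφmem _ (hcl j).2) _ (hφmem _ (hcl l).2))
      have hφd : φ (σ j) - φ (σ l) = 2 * Real.pi / 2 ^ m * ((σ j : ℝ) - σ l) := by
        simp only [hφ]; ring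
      have hφa : |φ (σ j) - φ (σ l)| = 2 * Real.pi / 2 ^ m * ((σ j : ℝ) - σ l) := by
        rw [hφd, abs_of_nonneg]
        apply mul_nonneg (by positivity)
        linarith
      rw [hφa] at htb
      have hcc : c * ((σ j : ℝ) - σ l) = 4 * (3 / 2 * 2 ^ k * (2 * Real.pi / 2 ^ m * ((σ j : ℝ) - σ l))) := by
        rw [hc]; ring
      have hlow := (abs_le.1 hb).1
      rw [hcc]
      linarith
    · simp
  have hsumR := fin_sum_le σ hσ (2 ^ (m - k)) (by positivity) (by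
    intro t t'
    have h1 := (hcell (σ t) (hcl t).2).1
    have h2 := (hcell (σ t') (hcl t').2).2
    have h1' : (i:ℝ) * 2 ^ (m - k) ≤ σ t := by exact_mod_cast h1
    have h2' : (σ t' : ℝ) ≤ ((i:ℝ) + 1) * 2 ^ (m - k) := by exact_mod_cast h2.le
    linarith)
  have hsum := Finset.sum_le_sum (s := Finset.univ) (fun (j : Fin n) _ =>
    Finset.sum_le_sum (s := Finset.univ) (fun (l : Fin n) _ => hterm j l))
  simp only [Finset.sum_sub_distrib, ← Finset.mul_sum] at hsum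
  have hcn : c * (n * 2 ^ (m - k)) = 12 * Real.pi * n := by
    rw [hc, hmk2]; field_simp
  have hcR := mul_le_mul_of_nonneg_left hsumR hc0
  rw [hcn] at hcR
  have hfin := hsum
  unfold y2
  unfold yb at base
  have h2pi : 0 ≤ 2 / Real.pi := by positivity
  have hmul := mul_le_mul_of_nonneg_left (show
    (∑ j : Fin n, ∑ l : Fin n, if l < j then (-Complex.log (1 - bm (pt k i) (pt m (σ j)) *
        (starRingEnd ℂ) (bm (pt k i) (pt m (σ l))))).im / ((j : ℝ) - (l : ℝ)) else 0) - 12 * Real.pi * n ≤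
    ∑ j : Fin n, ∑ l : Fin n, (if l < j then (BB (Complex.exp (G (φ (σ j)))) (Complex.exp (G (φ (σ l)))) -
        BB (Complex.exp (G (φ (σ j)))) (-Complex.exp (G (φ (σ l))))).im / ((j : ℝ) - (l : ℝ)) else 0) by linarith) h2pi
  have h24 : 2 / Real.pi * (12 * Real.pi * n) = 24 * n := by field_simp; ring
  rw [mul_sub, h24] at hmul
  have e1 : (n:ℝ) * (Real.log n - (C + 24)) = n * (Real.log n - C) - 24 * n := by ring
  rw [e1]
  linarith

end V5helper40.SZ.H3
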