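import Pool.Agent.V5helper73.SZ.Stm

/-! # Project SZ, job SUMX: the sum over the admissible vertices of a level -/

set_option autoImplicit false

namespace V5helper40.SZ

open V5helper73.SZ Finset

/-- the path bound -/
lemma path {C δ : ℝ} (hC : 1 ≤ C) (hδ : 0 < δ) {w : ℕ → ℕ → ℂ} {d : ℕ → ℕ → ℝ} (hT : Tree C w d) {k i : ℕ}
    (hadm : adm δ d k i) : ∀ p : ℕ, p ≤ k →
      ‖w k i - w (k - p) (i / 2 ^ p)‖ ≤
        C * ((2:ℝ) ^ δ / ((2:ℝ) ^ δ - 1)) * d k i * ((2:ℝ) ^ δ) ^ p := by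
  have hr : (1:ℝ) < (2:ℝ) ^ δ := Real.one_lt_rpow (by norm_num) hδ
  set r : ℝ := (2:ℝ) ^ δ with hrdef
  have hd := hT.pos k i
  intro p
  induction p with
  | zero =>
    intro _
    simp only [Nat.sub_zero, pow_zero, Nat.div_one, sub_self, norm_zero]
    have : 0 < r - 1 := by linarith
    positivity
  | succ p ih =>
    intro hp
    have h1 := ih (by omega)
    have hk : k - p = (k - (p + 1)) + 1 := by omega
    have h2 := hT.step (k - (p + 1)) (i / 2 ^ p)
    rw [← hk] at h2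
    have h3 : i / 2 ^ p / 2 = i / 2 ^ (p + 1) := by
      rw [Nat.div_div_eq_div_mul, pow_succ]
    rw [h3] at h2
    have h4 := hadm (k - (p + 1)) (Nat.sub_le _ _)
    have h5 : k - (k - (p + 1)) = p + 1 := by omega
    rw [h5] at h4
    have h6 : ((k:ℝ) - ((k - (p + 1) : ℕ) : ℝ)) = ((p + 1 : ℕ) : ℝ) := by
      rw [Nat.cast_sub hp]; ring
    rw [h6, Real.rpow_mul (by norm_num), Real.rpow_natCast, ← hrdef] at h4
    have h7 : ‖w k i - w (k - (p + 1)) (i / 2 ^ (p + 1))‖ ≤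
        ‖w k i - w (k - p) (i / 2 ^ p)‖ + ‖w (k - p) (i / 2 ^ p) - w (k - (p + 1)) (i / 2 ^ (p + 1))‖ :=
      norm_sub_le_norm_sub_add_norm_sub _ _ _
    have h8 : C * d (k - (p + 1)) (i / 2 ^ (p + 1)) ≤ C * (d k i * r ^ (p + 1)) :=
      mul_le_mul_of_nonneg_left h4 (by linarith)
    have hr1 : r - 1 ≠ 0 := by linarith
    have h9 : C * (r / (r - 1)) * d k i * r ^ p + C * (d k i * r ^ (p + 1)) =
        C * (r / (r - 1)) * d k i * r ^ (p + 1) := by
      rw [pow_succ]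
      field_simp
      ring
    linarith

/-- the constant of (*) -/
noncomputable def K1 (C δ : ℝ) : ℝ := 2 * C ^ 2 * (4 * (C * ((2:ℝ) ^ δ / ((2:ℝ) ^ δ - 1))) * (2:ℝ) ^ δ) ^ (2 / δ)

lemma one_le_c {δ : ℝ} (hδ : 0 < δ) : 1 ≤ (2:ℝ) ^ δ / ((2:ℝ) ^ δ - 1) := by
  have hr : (1:ℝ) < (2:ℝ) ^ δ := Real.one_lt_rpow (by norm_num) hδ
  rw [le_div_iff₀ (by linarith)]
  linarith

lemma star {C δ : ℝ} (hC : 1 ≤ C) (hδ : 0 < δ) {w : ℕ → ℕ → ℂ} {d : ℕ → ℕ → ℝ} (hT : Tree C w d) {k i : ℕ}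
    (hi : i < 2 ^ k) (hadm : adm δ d k i) :
    (‖w k i‖ + d k i) * ((‖w k i‖ + d k i) / d k i) ^ (2 / δ) ≤ K1 C δ * 4 ^ k := by
  have hr : (1:ℝ) < (2:ℝ) ^ δ := Real.one_lt_rpow (by norm_num) hδ
  have hc := one_le_c hδ
  have hpath := path hC hδ hT hadm
  have hd := hT.pos k i
  unfold K1
  set r : ℝ := (2:ℝ) ^ δ with hrdef
  set c : ℝ := r / (r - 1) with hcdef
  set D : ℝ := C * c with hDdef
  have hD1 : 1 ≤ D := by rw [hDdef]; nlinarith
  set x : ℝ := ‖w k i‖ with hx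
  have hx0 : 0 ≤ x := norm_nonneg _
  set y : ℝ := x + d k i with hy
  have hy0 : 0 < y := by linarith
  set u : ℝ := y / d k i with hu
  have hu1 : 1 ≤ u := by
    rw [hu, le_div_iff₀ hd]; linarith
  have hdC : d k i ≤ C ^ 2 * 4 ^ k := by
    rcases Nat.eq_zero_or_pos k with hk | hk
    · subst hk
      have : i = 0 := by simpa using hi
      subst this
      rw [hT.one, pow_zero, mul_one]
      exact one_le_pow₀ hC
    · have h1 := hT.low k i hk
      have h2 := hT.up k i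
      calc d k i ≤ C * ‖w k i‖ := h1
        _ ≤ C * (C * 4 ^ k) := mul_le_mul_of_nonneg_left h2 (by linarith)
        _ = C ^ 2 * 4 ^ k := by ring
  have h2δ : 0 < 2 / δ := by positivity
  have hr4 : r ^ (2 / δ) = 4 := by
    rw [hrdef, ← Real.rpow_mul (by norm_num)]
    have : δ * (2 / δ) = (2:ℕ) := by field_simp; norm_num
    rw [this, Real.rpow_natCast]; norm_num
  by_cases hcase : u < 4 * D
  · have h1 : y ≤ 2 * C ^ 2 * 4 ^ k := by
      have h2 := hT.up k i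
      have h3 : (0:ℝ) < 4 ^ k := by positivity
      have h4 : C * 4 ^ k ≤ C ^ 2 * 4 ^ k := by
        apply mul_le_mul_of_nonneg_right _ h3.le
        nlinarith
      calc y = x + d k i := rfl
        _ ≤ C * 4 ^ k + C ^ 2 * 4 ^ k := add_le_add h2 hdC
        _ ≤ 2 * C ^ 2 * 4 ^ k := by linarith
    have h2 : u ^ (2 / δ) ≤ (4 * D * r) ^ (2 / δ) := by
      apply Real.rpow_le_rpow (by linarith) _ h2δ.le
      nlinarith
    calc y * u ^ (2 / δ) ≤ (2 * C ^ 2 * 4 ^ k) * (4 * D * r) ^ (2 / δ) :=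
          mul_le_mul h1 h2 (by positivity) (by positivity)
      _ = _ := by ring
  · push Not at hcase
    have h4D : 0 < 4 * D := by linarith
    obtain ⟨p, hp1, hp2⟩ := exists_nat_pow_near (x := u / (4 * D)) (y := r)
      (by rw [le_div_iff₀ h4D]; linarith) hr
    rw [le_div_iff₀ h4D] at hp1
    rw [div_lt_iff₀ h4D] at hp2
    -- p < k
    have hroot : w 0 (i / 2 ^ k) = 0 := by
      rw [Nat.div_eq_of_lt hi]; exact hT.root
    have hk1 : y ≤ 2 * D * d k i * r ^ k := by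
      have h1 := hpath k le_rfl
      rw [Nat.sub_self, hroot, sub_zero] at h1
      have h2 : (1:ℝ) ≤ r ^ k := one_le_pow₀ hr.le
      have h3 : d k i ≤ D * d k i * r ^ k := by
        have : 1 ≤ D * r ^ k := by nlinarith
        nlinarith
      calc y = x + d k i := rfl
        _ ≤ C * c * d k i * r ^ k + D * d k i * r ^ k := add_le_add h1 h3
        _ = _ := by rw [hDdef]; ring
    have hpk : p < k := by
      by_contra hcon
      push Not at hcon
      have h1 : r ^ k ≤ r ^ p := pow_le_pow_right₀ hr.le hcon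
      have h2 : u ≤ 2 * D * r ^ k := by
        rw [hu, div_le_iff₀ hd]; linarith
      have h3 : (0:ℝ) < r ^ k := by positivity
      nlinarith
    have hyp : y ≤ 2 * C * 4 ^ (k - p) := by
      have h1 := hpath p hpk.le
      have h2 := hT.up (k - p) (i / 2 ^ p)
      have h3 : x ≤ ‖w k i - w (k - p) (i / 2 ^ p)‖ + ‖w (k - p) (i / 2 ^ p)‖ := by
        rw [hx]
        calc ‖w k i‖ = ‖(w k i - w (k - p) (i / 2 ^ p)) + w (k - p) (i / 2 ^ p)‖ := by congr 1; ring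
          _ ≤ _ := norm_add_le _ _
      have h4 : (1:ℝ) ≤ r ^ p := one_le_pow₀ hr.le
      have h5 : d k i ≤ D * d k i * r ^ p := by
        have : 1 ≤ D * r ^ p := by nlinarith
        nlinarith
      have h6 : 4 * D * d k i * r ^ p ≤ y := by
        have : r ^ p * (4 * D) * d k i ≤ u * d k i := mul_le_mul_of_nonneg_right hp1 hd.le
        have h7 : u * d k i = y := by rw [hu]; field_simp
        linarith
      have h8 : C * c * d k i * r ^ p = D * d k i * r ^ p := by rw [hDdef]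
      have : y = x + d k i := rfl
      linarith
    have hup : u ^ (2 / δ) ≤ (4 * D * r) ^ (2 / δ) * 4 ^ p := by
      have h1 : u ≤ (4 * D * r) * r ^ p := by rw [pow_succ] at hp2; nlinarith
      calc u ^ (2 / δ) ≤ ((4 * D * r) * r ^ p) ^ (2 / δ) := Real.rpow_le_rpow (by linarith) h1 h2δ.le
        _ = (4 * D * r) ^ (2 / δ) * (r ^ p) ^ (2 / δ) := Real.mul_rpow (by positivity) (by positivity)
        _ = (4 * D * r) ^ (2 / δ) * 4 ^ p := by
          rw [← Real.rpow_natCast r p, ← Real.rpow_mul (by positivity), mul_comm (p:ℝ), Real.rpow_mul (by positivity),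
            hr4, Real.rpow_natCast]
    have h44 : (4:ℝ) ^ (k - p) * 4 ^ p = 4 ^ k := by
      rw [← pow_add]; congr 1; omega
    calc y * u ^ (2 / δ) ≤ (2 * C * 4 ^ (k - p)) * ((4 * D * r) ^ (2 / δ) * 4 ^ p) :=
          mul_le_mul hyp hup (by positivity) (by positivity)
      _ = 2 * C * (4 * D * r) ^ (2 / δ) * (4 ^ (k - p) * 4 ^ p) := by ring
      _ = 2 * C * (4 * D * r) ^ (2 / δ) * 4 ^ k := by rw [h44]
      _ ≤ 2 * C ^ 2 * (4 * D * r) ^ (2 / δ) * 4 ^ k := by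
        have : C ≤ C ^ 2 := by nlinarith
        gcongr

lemma geom_le {q : ℝ} (h0 : 0 ≤ q) (h1 : q < 1) (N : ℕ) : ∑ b ∈ range N, q ^ b ≤ 1 / (1 - q) := by
  have := (summable_geometric_of_lt_one h0 h1).sum_le_tsum (range N) (fun i _ => pow_nonneg h0 i)
  rw [tsum_geometric_of_lt_one h0 h1] at this
  rwa [one_div]

theorem t_SUMX (hAR : S_AR) : S_SUMX := by
  intro C α β hC hβ hαβ hα
  obtain ⟨K2', hK2'⟩ := hAR C hC
  set δ : ℝ := α - β with hδdef
  have hδ : 0 < δ := by rw [hδdef]; linarith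
  have hα0 : 0 < α := by linarith
  set K2 : ℝ := max K2' 0 with hK2
  have hK20 : 0 ≤ K2 := le_max_right _ _
  have hr : (1:ℝ) < (2:ℝ) ^ δ := Real.one_lt_rpow (by norm_num) hδ
  have hc := one_le_c hδ
  have hK1 : 0 < K1 C δ := by
    unfold K1
    have : 0 < (2:ℝ) ^ δ / ((2:ℝ) ^ δ - 1) := by linarith
    positivity
  set q1 : ℝ := (2:ℝ) ^ (-α) with hq1
  set q2 : ℝ := (2:ℝ) ^ (-δ) with hq2
  have hq10 : 0 < q1 := by positivity
  have hq20 : 0 < q2 := by positivity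
  have hq11 : q1 < 1 := Real.rpow_lt_one_of_one_lt_of_neg (by norm_num) (by linarith)
  have hq21 : q2 < 1 := Real.rpow_lt_one_of_one_lt_of_neg (by norm_num) (by linarith)
  refine ⟨25 * K2 * (K1 C δ) ^ δ * (1 / (1 - q1)) * (1 / (1 - q2)), ?_⟩
  intro w d hT k s hs
  -- abbreviations
  set y : ℕ → ℝ := fun i => ‖w k i‖ + d k i with hy
  set u : ℕ → ℝ := fun i => y i / d k i with hu
  have hd : ∀ i, 0 < d k i := fun i => hT.pos k i
  have hy0 : ∀ i, 0 < y i := fun i => by have := hd i; have := norm_nonneg (w k i); simp only [hy]; linarith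
  have hu1 : ∀ i, 1 ≤ u i := fun i => by
    simp only [hu]; rw [le_div_iff₀ (hd i)]; have := norm_nonneg (w k i); simp only [hy]; linarith
  set A : ℕ → ℝ := fun b => K1 C δ * 4 ^ k / ((2:ℝ) ^ b) ^ (2 / δ) with hA
  have hA0 : ∀ b, 0 < A b := fun b => by simp only [hA]; positivity
  have hb : ∀ i, ∃ b : ℕ, (2:ℝ) ^ b ≤ u i ∧ u i < 2 ^ (b + 1) := fun i =>
    exists_nat_pow_near (hu1 i) (by norm_num)
  choose b hb1 hb2 using hb
  have hn : ∀ i, ∃ n : ℕ, i ∈ s → (2:ℝ) ^ n ≤ A (b i) / y i ∧ A (b i) / y i < 2 ^ (n + 1) := by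
    intro i
    by_cases hi : i ∈ s
    · have h1 := star hC hδ hT (hs i hi).1 (hs i hi).2
      have h2 : 1 ≤ A (b i) / y i := by
        rw [le_div_iff₀ (hy0 i), one_mul]
        simp only [hA]
        rw [le_div_iff₀ (by positivity)]
        calc y i * ((2:ℝ) ^ b i) ^ (2 / δ) ≤ y i * (u i) ^ (2 / δ) := by
              apply mul_le_mul_of_nonneg_left _ (hy0 i).le
              exact Real.rpow_le_rpow (by positivity) (hb1 i) (by positivity)
          _ ≤ _ := h1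
      obtain ⟨n, hn1, hn2⟩ := exists_nat_pow_near h2 (y := (2:ℝ)) (by norm_num)
      exact ⟨n, fun _ => ⟨hn1, hn2⟩⟩
    · exact ⟨0, fun h => absurd h hi⟩
  choose n hn using hn
  set N : ℕ := (s.sup b) + (s.sup n) + 1 with hN
  have hmaps : ∀ i ∈ s, (b i, n i) ∈ range N ×ˢ range N := by
    intro i hi
    have h1 : b i ≤ s.sup b := le_sup (f := b) hi
    have h2 : n i ≤ s.sup n := le_sup (f := n) hi
    simp only [mem_product, mem_range]
    omega
  rw [← Finset.sum_fiberwise_of_maps_to hmaps]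
  -- each class
  have hcls : ∀ e ∈ range N ×ˢ range N,
      ∑ i ∈ s with (b i, n i) = e, (d k i) ^ α * (‖w k i‖ + d k i) ^ (-β) ≤
        25 * K2 * ((K1 C δ) ^ δ * 4 ^ ((k:ℝ) * δ)) * (q1 ^ e.1 * q2 ^ e.2) := by
    rintro ⟨b₀, n₀⟩ -
    set σ : ℝ := A b₀ / 2 ^ n₀ with hσ
    have hσ0 : 0 < σ := by have := hA0 b₀; positivity
    set F := s.filter (fun i => (b i, n i) = (b₀, n₀)) with hF
    have hFmem : ∀ i ∈ F, i ∈ s ∧ b i = b₀ ∧ n i = n₀ := by
      intro i hi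
      rw [hF, mem_filter] at hi
      refine ⟨hi.1, ?_, ?_⟩
      · exact congrArg Prod.fst hi.2
      · exact congrArg Prod.snd hi.2
    have hyσ : ∀ i ∈ F, y i ≤ σ ∧ σ / 2 < y i := by
      intro i hi
      obtain ⟨h1, h2, h3⟩ := hFmem i hi
      obtain ⟨h4, h5⟩ := hn i h1
      rw [h2, h3] at h4 h5
      rw [le_div_iff₀ (hy0 i)] at h4
      rw [div_lt_iff₀ (hy0 i)] at h5
      constructor
      · rw [hσ, le_div_iff₀ (by positivity)]; linarith
      · rw [hσ, div_div, div_lt_iff₀ (by positivity), ← pow_succ]; linarith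
    have hcard : (F.card : ℝ) ≤ 25 * K2 * 4 ^ b₀ := by
      have h1 := hK2' w d hT k F σ (σ / 2 ^ (b₀ + 2)) 0 (by positivity) hσ0.le ?_
      · have h2 : σ / (σ / 2 ^ (b₀ + 2)) = 2 ^ (b₀ + 2) := by field_simp
        rw [h2] at h1
        have h3 : ((2:ℝ) ^ (b₀ + 2) + 1) ^ 2 ≤ 25 * 4 ^ b₀ := by
          have h4 : (1:ℝ) ≤ 2 ^ b₀ := one_le_pow₀ (by norm_num)
          have h5 : (4:ℝ) ^ b₀ = (2 ^ b₀) ^ 2 := by rw [← pow_mul, mul_comm, pow_mul]; norm_num
          rw [h5, pow_add]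
          nlinarith
        calc (F.card : ℝ) ≤ K2' * ((2:ℝ) ^ (b₀ + 2) + 1) ^ 2 := h1
          _ ≤ K2 * ((2:ℝ) ^ (b₀ + 2) + 1) ^ 2 := mul_le_mul_of_nonneg_right (le_max_left _ _) (by positivity)
          _ ≤ K2 * (25 * 4 ^ b₀) := mul_le_mul_of_nonneg_left h3 hK20
          _ = _ := by ring
      · intro i hi
        obtain ⟨h1, h2, h3⟩ := hFmem i hi
        obtain ⟨h4, h5⟩ := hyσ i hi
        refine ⟨(hs i h1).1, ?_, ?_⟩
        · rw [sub_zero]
          have : ‖w k i‖ ≤ y i := by simp only [hy]; have := hd i; linarith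
          nlinarith
        · have h6 := hb2 i
          rw [h2] at h6
          have h7 : y i = u i * d k i := by simp only [hu]; have := hd i; field_simp
          have h8 : u i * d k i ≤ 2 ^ (b₀ + 1) * d k i := mul_le_mul_of_nonneg_right h6.le (hd i).le
          rw [div_le_iff₀ (by positivity), pow_succ]
          linarith
    have hterm : ∀ i ∈ F, (d k i) ^ α * (‖w k i‖ + d k i) ^ (-β) ≤ σ ^ δ * q1 ^ b₀ := by
      intro i hi
      obtain ⟨h1, h2, h3⟩ := hFmem i hi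
      obtain ⟨h4, h5⟩ := hyσ i hi
      have h7 : d k i = y i / u i := by
        have := hd i; have := hy0 i
        simp only [hu]; field_simp
      have hui : 0 < u i := lt_of_lt_of_le one_pos (hu1 i)
      have h8 : (d k i) ^ α * (‖w k i‖ + d k i) ^ (-β) = (y i) ^ δ * (u i) ^ (-α) := by
        change (d k i) ^ α * (y i) ^ (-β) = (y i) ^ δ * (u i) ^ (-α)
        rw [h7, Real.div_rpow (hy0 i).le hui.le, hδdef, sub_eq_add_neg, Real.rpow_add (hy0 i), Real.rpow_neg hui.le]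
        ring
      rw [h8]
      have h9 : (y i) ^ δ ≤ σ ^ δ := Real.rpow_le_rpow (hy0 i).le h4 hδ.le
      have h10 : (u i) ^ (-α) ≤ q1 ^ b₀ := by
        have h11 := hb1 i
        rw [h2] at h11
        calc (u i) ^ (-α) ≤ ((2:ℝ) ^ b₀) ^ (-α) :=
              Real.rpow_le_rpow_of_nonpos (by positivity) h11 (by linarith)
          _ = q1 ^ b₀ := by
            rw [hq1, ← Real.rpow_natCast, ← Real.rpow_natCast, ← Real.rpow_mul (by norm_num),
              ← Real.rpow_mul (by norm_num), mul_comm]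
      exact mul_le_mul h9 h10 (by positivity) (by positivity)
    have hσδ : σ ^ δ = (K1 C δ) ^ δ * 4 ^ ((k:ℝ) * δ) / 4 ^ b₀ * q2 ^ n₀ := by
      have e1 : σ = K1 C δ * 4 ^ k / ((2:ℝ) ^ b₀) ^ (2 / δ) / 2 ^ n₀ := rfl
      rw [e1, Real.div_rpow (by positivity) (by positivity), Real.div_rpow (by positivity) (by positivity),
        Real.mul_rpow hK1.le (by positivity)]
      have e2 : (((2:ℝ) ^ b₀) ^ (2 / δ)) ^ δ = 4 ^ b₀ := by
        rw [← Real.rpow_mul (by positivity)]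
        have : 2 / δ * δ = (2:ℕ) := by field_simp; norm_num
        rw [this, Real.rpow_natCast, ← pow_mul, mul_comm, pow_mul]; norm_num
      have e3 : ((4:ℝ) ^ k) ^ δ = 4 ^ ((k:ℝ) * δ) := by
        rw [← Real.rpow_natCast, ← Real.rpow_mul (by norm_num)]
      have e4 : ((2:ℝ) ^ n₀) ^ δ = (q2 ^ n₀)⁻¹ := by
        rw [hq2, ← Real.rpow_natCast, ← Real.rpow_natCast, ← Real.rpow_mul (by norm_num),
          ← Real.rpow_mul (by norm_num), ← Real.rpow_neg (by norm_num)]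
        congr 1; ring
      rw [e2, e3, e4, div_inv_eq_mul]
    calc ∑ i ∈ F, (d k i) ^ α * (‖w k i‖ + d k i) ^ (-β) ≤ ∑ i ∈ F, σ ^ δ * q1 ^ b₀ := sum_le_sum hterm
      _ = F.card * (σ ^ δ * q1 ^ b₀) := by rw [sum_const, nsmul_eq_mul]
      _ ≤ (25 * K2 * 4 ^ b₀) * (σ ^ δ * q1 ^ b₀) := mul_le_mul_of_nonneg_right hcard (by positivity)
      _ = 25 * K2 * ((K1 C δ) ^ δ * 4 ^ ((k:ℝ) * δ)) * (q1 ^ b₀ * q2 ^ n₀) := by
        rw [hσδ]; field_simp
  refine (sum_le_sum hcls).trans ?_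
  rw [← mul_sum, sum_product]
  have h1 : ∑ x ∈ range N, ∑ y ∈ range N, q1 ^ x * q2 ^ y = (∑ x ∈ range N, q1 ^ x) * ∑ y ∈ range N, q2 ^ y := by
    rw [sum_mul_sum]
  simp only at h1 ⊢
  rw [h1]
  have h2 := geom_le hq10.le hq11 N
  have h3 := geom_le hq20.le hq21 N
  have h4 : (∑ x ∈ range N, q1 ^ x) * ∑ y ∈ range N, q2 ^ y ≤ (1 / (1 - q1)) * (1 / (1 - q2)) :=
    mul_le_mul h2 h3 (sum_nonneg fun i _ => by positivity) (by
      have : 0 < 1 - q1 := by linarith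
      positivity)
  calc 25 * K2 * ((K1 C δ) ^ δ * 4 ^ ((k:ℝ) * δ)) * ((∑ x ∈ range N, q1 ^ x) * ∑ y ∈ range N, q2 ^ y)
      ≤ 25 * K2 * ((K1 C δ) ^ δ * 4 ^ ((k:ℝ) * δ)) * ((1 / (1 - q1)) * (1 / (1 - q2))) :=
        mul_le_mul_of_nonneg_left h4 (by positivity)
    _ = _ := by ring

end V5helper40.SZ
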